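import Mathlib

/-!
# Counting with a gap principle
-/

set_option autoImplicit false

namespace Pool.Agent.TH349.SIC

/-- consecutive solutions of Pell's equation at least double -/
theorem pell_gap {D x y x' y' : ℤ} (hx : 0 < x) (hx' : 0 < x') (hD : 0 < D) (hy : 0 ≤ y)
    (hy' : 0 ≤ y') (h : x ^ 2 - D * y ^ 2 = 1) (h' : x' ^ 2 - D * y' ^ 2 = 1) (hlt : x < x') :
    2 * x ≤ x' := by
  set X := x' * x - D * (y * y') with hX
  set Y := y' * x - x' * y with hY
  have h1 : X ^ 2 - D * Y ^ 2 = 1 := by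
    rw [hX, hY]
    linear_combination (x ^ 2 - D * y ^ 2) * h' + h
  have h2 : X * x + D * (Y * y) = x' := by
    rw [hX, hY]
    linear_combination x' * h
  have h3 : 0 < Y := by
    have h4 : D * ((y' * x) ^ 2 - (x' * y) ^ 2) = x' ^ 2 - x ^ 2 := by
      linear_combination -x ^ 2 * h' + x' ^ 2 * h
    have h5 : 0 < x' ^ 2 - x ^ 2 := by nlinarith
    have h6 : 0 < (y' * x) ^ 2 - (x' * y) ^ 2 := by
      rw [← h4] at h5
      exact (pos_iff_pos_of_mul_pos h5).mp hD
    have h7 : (x' * y) ^ 2 < (y' * x) ^ 2 := by linarith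
    have h8 : x' * y < y' * x := lt_of_pow_lt_pow_left₀ 2 (by positivity) h7
    rw [hY]
    linarith
  have h4 : 0 < X := by
    have h5 : (D * (y * y')) ^ 2 < (x' * x) ^ 2 := by
      have h6 : (D * (y * y')) ^ 2 = (x ^ 2 - 1) * (x' ^ 2 - 1) := by
        linear_combination (-(D * y' ^ 2)) * h - (x ^ 2 - 1) * h'
      have h7 : 1 ≤ x ^ 2 := by nlinarith
      have h8 : 1 ≤ x' ^ 2 := by nlinarith
      rw [h6]
      nlinarith
    have h9 : D * (y * y') < x' * x := lt_of_pow_lt_pow_left₀ 2 (by positivity) h5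
    rw [hX]
    linarith
  have h5 : 2 ≤ X := by
    by_contra hlt2
    have h6 : X = 1 := by omega
    rw [h6] at h1
    have h7 : 0 < D * Y ^ 2 := by positivity
    linarith
  have h6 : 0 ≤ D * (Y * y) := by positivity
  nlinarith

/-- a set of positive integers `≤ N` in which any two different elements differ by a factor at
least two -/
theorem card_doubling (S : Finset ℕ) (N : ℕ) (h1 : ∀ s ∈ S, 2 ≤ s ∧ s ≤ N)
    (h2 : ∀ s ∈ S, ∀ t ∈ S, s < t → 2 * s ≤ t) : S.card ≤ Nat.log 2 N := by
  classical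
  have h3 : Set.InjOn (fun s => Nat.log 2 s) (S : Set ℕ) := by
    intro s hs t ht hst
    simp only at hst
    by_contra hne
    rcases lt_or_gt_of_ne hne with hlt | hlt
    · have h4 := h2 s hs t ht hlt
      have h5 : Nat.log 2 s + 1 ≤ Nat.log 2 t := by
        have h6 := Nat.log_mono_right (b := 2) h4
        rw [mul_comm, Nat.log_mul_base (by norm_num) (by have := (h1 s hs).1; omega)] at h6
        exact h6
      omega
    · have h4 := h2 t ht s hs hlt
      have h5 : Nat.log 2 t + 1 ≤ Nat.log 2 s := by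
        have h6 := Nat.log_mono_right (b := 2) h4
        rw [mul_comm, Nat.log_mul_base (by norm_num) (by have := (h1 t ht).1; omega)] at h6
        exact h6
      omega
  have h4 : S.image (fun s => Nat.log 2 s) ⊆ Finset.Icc 1 (Nat.log 2 N) := by
    intro l hl
    rw [Finset.mem_image] at hl
    obtain ⟨s, hs, rfl⟩ := hl
    rw [Finset.mem_Icc]
    refine ⟨?_, Nat.log_mono_right (h1 s hs).2⟩
    have h5 := Nat.log_mono_right (b := 2) (h1 s hs).1
    have h6 : Nat.log 2 2 = 1 := by decide
    omega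
  calc S.card = (S.image (fun s => Nat.log 2 s)).card := (Finset.card_image_of_injOn h3).symm
    _ ≤ (Finset.Icc 1 (Nat.log 2 N)).card := Finset.card_le_card h4
    _ = Nat.log 2 N := by simp

end Pool.Agent.TH349.SIC
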