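import Pool.Agent.TH349.SIC.Classes
import Pool.Agent.TH349.SIC.Pell
import Pool.Agent.H109R2.Phases
import Pool.Agent.H109R2.SICField
import Pool.Agent.H109R2.SICWitt

/-!
# Maximal equiangular tight frames over a fixed number field
-/

set_option autoImplicit false

open Module Pool.Agent.H109R2.SIC

namespace Pool.Agent.TH349.SIC

variable {d : ℕ} {x : Fin (d ^ 2) → EuclideanSpace ℂ (Fin d)}

/-- triple products of distinct indices in `K` implies all triple products in `K` -/
theorem all_triples (hx : IsMaxETF d x) (K : Subfield ℂ)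
    (hK : ∀ i j k, i ≠ j → j ≠ k → k ≠ i →
      inner ℂ (x i) (x j) * inner ℂ (x j) (x k) * inner ℂ (x k) (x i) ∈ K) (i j k : Fin (d ^ 2)) :
    inner ℂ (x i) (x j) * inner ℂ (x j) (x k) * inner ℂ (x k) (x i) ∈ K := by
  have hd : ((d : ℂ) + 1) ∈ K := K.add_mem (natCast_mem K d) K.one_mem
  have hself : ∀ a, inner ℂ (x a) (x a) = (1 : ℂ) := by
    intro a
    rw [inner_self_eq_norm_sq_to_K, hx.1]
    simp
  have hpair : ∀ a b, inner ℂ (x a) (x b) * inner ℂ (x b) (x a) ∈ K := by
    intro a b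
    rw [inner_mul_inner hx]
    split_ifs
    · exact K.one_mem
    · exact K.div_mem K.one_mem hd
  by_cases h1 : i = j
  · subst h1
    rw [hself, one_mul]
    exact hpair _ _
  by_cases h2 : j = k
  · subst h2
    rw [hself, mul_one]
    exact hpair _ _
  by_cases h3 : k = i
  · subst h3
    rw [hself, mul_one]
    exact hpair _ _
  exact hK i j k h1 h2 h3

/-- the discriminant of the trace form is a square in the field of the triple products -/
theorem disc (hd : 3 ≤ d) (hx : IsMaxETF d x) (K : Subfield ℂ)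
    (hK : ∀ i j k, i ≠ j → j ≠ k → k ≠ i →
      inner ℂ (x i) (x j) * inner ℂ (x j) (x k) * inner ℂ (x k) (x i) ∈ K) :
    ∃ r ∈ K, r ^ 2 = (-1) ^ (d * (d - 1) / 2) * ((if Even d then d + 1 else d : ℕ) : ℂ) := by
  obtain ⟨M, hM⟩ := exists_matrices (by omega) hx K (all_triples hx K hK)
  have h1 := Pool.Agent.H109R2.Witt.MM_key (by omega) M hM
  have he : ((if Even d then d + 1 else d : ℕ) : K) ≠ 0 := by
    split_ifs
    · exact_mod_cast Nat.succ_ne_zero d
    · exact_mod_cast (by omega : d ≠ 0)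
  obtain ⟨⟨r, hr⟩, -⟩ := Pool.Agent.H109R2.Witt.key_disc (by omega) he h1
  refine ⟨r, r.2, ?_⟩
  split_ifs at hr ⊢ with hev
  all_goals
    have h2 := congrArg (fun z : K => (z : ℂ)) hr
    push_cast at h2 ⊢
    rw [sq, ← h2]

/-- `√(d+1)` lies in the field of the phases -/
theorem sqrt_mem (hd : 3 ≤ d) (hx : IsMaxETF d x) (K : Subfield ℂ)
    (hK : ∀ i j k, i ≠ j → j ≠ k → k ≠ i → Pool.Agent.H109R2.Phases.nt x i j k ∈ K) :
    ((Real.sqrt ((d : ℝ) + 1) : ℝ) : ℂ) ∈ K := by
  have h4 : 9 ≤ d ^ 2 := by nlinarith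
  have hij : (⟨0, by omega⟩ : Fin (d ^ 2)) ≠ ⟨1, by omega⟩ := by simp [Fin.ext_iff]
  have h1 := Pool.Agent.H109R2.Phases.sum1 hx hij
  have h2 : ∑ k ∈ Pool.Agent.H109R2.Phases.others (⟨0, by omega⟩ : Fin (d ^ 2)) ⟨1, by omega⟩,
      Pool.Agent.H109R2.Phases.nt x ⟨0, by omega⟩ k ⟨1, by omega⟩ ∈ K := by
    apply sum_mem
    intro k hk
    have h3 := Finset.mem_erase.mp hk
    have h5 := Finset.mem_erase.mp h3.2
    exact hK _ _ _ h5.1.symm h3.1 hij.symm
  rw [h1] at h2
  have hd2 : ((d : ℂ) - 2) ≠ 0 := by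
    intro h
    have h3 : (d : ℂ) = ((2 : ℕ) : ℂ) := by push_cast; linear_combination h
    have h5 : d = 2 := by exact_mod_cast h3
    omega
  have hd3 : ((d : ℂ) - 2) ∈ K := K.sub_mem (natCast_mem K d) (natCast_mem K 2)
  have h5 := K.div_mem h2 hd3
  rwa [mul_div_cancel_right₀ _ hd2] at h5

theorem triple_of_phase (hd : 3 ≤ d) (hx : IsMaxETF d x) (K : Subfield ℂ)
    (hK : ∀ i j k, i ≠ j → j ≠ k → k ≠ i → Pool.Agent.H109R2.Phases.nt x i j k ∈ K) :
    ∀ i j k, i ≠ j → j ≠ k → k ≠ i →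
      inner ℂ (x i) (x j) * inner ℂ (x j) (x k) * inner ℂ (x k) (x i) ∈ K := by
  intro i j k h1 h2 h3
  have h4 := sqrt_mem hd hx K hK
  have h5 := K.div_mem (hK i j k h1 h2 h3) (K.pow_mem h4 3)
  have h6 : ((Real.sqrt ((d : ℝ) + 1) : ℝ) : ℂ) ^ 3 ≠ 0 := by
    apply pow_ne_zero
    have : 0 < Real.sqrt ((d : ℝ) + 1) := Real.sqrt_pos.mpr (by positivity)
    exact_mod_cast this.ne'
  unfold Pool.Agent.H109R2.Phases.nt at h5
  rwa [mul_div_cancel_left₀ _ h6] at h5

/-- squarefree part -/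
noncomputable def sf (n : ℕ) : ℕ := (Nat.sq_mul_squarefree n).choose

/-- square root of the square part -/
noncomputable def sr (n : ℕ) : ℕ := (Nat.sq_mul_squarefree n).choose_spec.choose

theorem sr_sf (n : ℕ) : sr n ^ 2 * sf n = n := (Nat.sq_mul_squarefree n).choose_spec.choose_spec.1

theorem squarefree_sf (n : ℕ) : Squarefree (sf n) :=
  (Nat.sq_mul_squarefree n).choose_spec.choose_spec.2

theorem sr_pos {n : ℕ} (hn : 0 < n) : 0 < sr n := by
  rcases Nat.eq_zero_or_pos (sr n) with h | h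
  · have := sr_sf n
    rw [h] at this
    omega
  · exact h

theorem sf_pos {n : ℕ} : 0 < sf n := Nat.pos_of_ne_zero (squarefree_sf n).ne_zero

/-- the signed class -/
noncomputable def cls (e n : ℕ) : ℤ := (-1) ^ e * (sf n : ℤ)

theorem cls_natAbs (e n : ℕ) : (cls e n).natAbs = sf n := by
  unfold cls
  rw [Int.natAbs_mul, Int.natAbs_pow]
  simp

theorem squarefree_cls (e n : ℕ) : Squarefree (cls e n) := by
  rw [← Int.squarefree_natAbs, cls_natAbs]
  exact squarefree_sf n

theorem cls_root (K : Subfield ℂ) (e n : ℕ) (hn : 0 < n) (r : ℂ) (hr : r ∈ K)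
    (h : r ^ 2 = (-1) ^ e * (n : ℂ)) : ∃ s : K, s ^ 2 = ((cls e n : ℤ) : K) := by
  have hb : (sr n : ℂ) ≠ 0 := by exact_mod_cast (sr_pos hn).ne'
  refine ⟨⟨r / sr n, K.div_mem hr (natCast_mem K _)⟩, ?_⟩
  apply Subtype.coe_injective
  push_cast
  rw [div_pow, h]
  have h1 : (n : ℂ) = (sr n : ℂ) ^ 2 * (sf n : ℂ) := by
    have := sr_sf n
    exact_mod_cast this.symm
  rw [h1]
  unfold cls
  push_cast
  field_simp

/-- general counting: a finite set of dimensions, a class in `K` for each of them -/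
theorem count (K : Subfield ℂ) [FiniteDimensional ℚ K] (S : Finset ℕ) (e N : ℕ → ℕ) (B : ℕ)
    (hN : ∀ d ∈ S, 0 < N d) (hr : ∀ d ∈ S, ∃ r ∈ K, r ^ 2 = (-1) ^ (e d) * (N d : ℂ))
    (hB : ∀ c : ℤ, (S.filter fun d => cls (e d) (N d) = c).card ≤ B) :
    S.card ≤ B * finrank ℚ K := by
  classical
  have h1 : (S.image fun d => cls (e d) (N d)).card ≤ finrank ℚ K := by
    apply card_classes
    intro m hm
    rw [Finset.mem_image] at hm
    obtain ⟨d, hd, rfl⟩ := hm
    obtain ⟨r, hrK, hr2⟩ := hr d hd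
    exact ⟨squarefree_cls _ _, cls_root K _ _ (hN d hd) r hrK hr2⟩
  calc S.card ≤ B * (S.image fun d => cls (e d) (N d)).card :=
        Finset.card_le_mul_card_image S B (fun c _ => hB c)
    _ ≤ B * finrank ℚ K := Nat.mul_le_mul_left _ h1

/-- the odd one of `d`, `d + 1` -/
def oddN (d : ℕ) : ℕ := if Even d then d + 1 else d

theorem count_all (K : Subfield ℂ) [FiniteDimensional ℚ K] (X : ℕ) (S : Finset ℕ)
    (hS : ∀ d ∈ S, 3 ≤ d ∧ d ≤ X)
    (hr : ∀ d ∈ S, ∃ r ∈ K, r ^ 2 = (-1) ^ (d * (d - 1) / 2) * (oddN d : ℂ)) :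
    S.card ≤ 2 * Nat.sqrt (X + 1) * finrank ℚ K := by
  classical
  refine count K S (fun d => d * (d - 1) / 2) oddN _ ?_ hr ?_
  · intro d hd
    have := hS d hd
    unfold oddN
    split_ifs <;> omega
  · intro c
    have hinj : Set.InjOn (fun d => (sr (oddN d), d % 2))
        ((S.filter fun d => cls (d * (d - 1) / 2) (oddN d) = c : Finset ℕ) : Set ℕ) := by
      intro a ha b hb hab
      simp only [Finset.coe_filter, Set.mem_ofPred_eq] at ha hb
      simp only [Prod.mk.injEq] at hab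
      have h1 : sf (oddN a) = sf (oddN b) := by
        rw [← cls_natAbs (a * (a - 1) / 2) (oddN a), ← cls_natAbs (b * (b - 1) / 2) (oddN b),
          ha.2, hb.2]
      have h2 : oddN a = oddN b := by
        rw [← sr_sf (oddN a), ← sr_sf (oddN b), h1, hab.1]
      have h3 := hab.2
      unfold oddN at h2
      split_ifs at h2 with he1 he2 he2
      · omega
      · rw [Nat.even_iff] at he1 he2
        omega
      · rw [Nat.even_iff] at he1 he2
        omega
      · exact h2
    rw [← Finset.card_image_of_injOn hinj]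
    have hsub : (S.filter fun d => cls (d * (d - 1) / 2) (oddN d) = c).image
        (fun d => (sr (oddN d), d % 2)) ⊆ (Finset.Icc 1 (Nat.sqrt (X + 1))) ×ˢ Finset.range 2 := by
      intro p hp
      rw [Finset.mem_image] at hp
      obtain ⟨d, hd, rfl⟩ := hp
      rw [Finset.mem_filter] at hd
      have h1 := hS d hd.1
      have h2 : 0 < oddN d := by unfold oddN; split_ifs <;> omega
      have h3 : oddN d ≤ X + 1 := by unfold oddN; split_ifs <;> omega
      rw [Finset.mem_product, Finset.mem_Icc, Finset.mem_range]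
      refine ⟨⟨sr_pos h2, ?_⟩, Nat.mod_lt _ (by norm_num)⟩
      rw [Nat.le_sqrt']
      calc sr (oddN d) ^ 2 = sr (oddN d) ^ 2 * 1 := by ring
        _ ≤ sr (oddN d) ^ 2 * sf (oddN d) := Nat.mul_le_mul_left _ sf_pos
        _ = oddN d := sr_sf _
        _ ≤ X + 1 := h3
    calc _ ≤ ((Finset.Icc 1 (Nat.sqrt (X + 1))) ×ˢ Finset.range 2).card := Finset.card_le_card hsub
      _ = 2 * Nat.sqrt (X + 1) := by
        rw [Finset.card_product, Nat.card_Icc, Finset.card_range]
        omega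

theorem count_odd (K : Subfield ℂ) [FiniteDimensional ℚ K] (X : ℕ) (S : Finset ℕ)
    (hS : ∀ d ∈ S, 3 ≤ d ∧ d ≤ X)
    (hr : ∀ d ∈ S, ∃ r ∈ K, r ^ 2 = (-1) ^ (d * (d - 1) / 2) * ((d * (d + 1) : ℕ) : ℂ)) :
    S.card ≤ Nat.log 2 (2 * X + 1) * finrank ℚ K := by
  classical
  refine count K S (fun d => d * (d - 1) / 2) (fun d => d * (d + 1)) _ ?_ hr ?_
  · intro d hd
    have := hS d hd
    exact Nat.mul_pos (by omega) (by omega)
  · intro c
    have hinj : Set.InjOn (fun d => 2 * d + 1)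
        ((S.filter fun d => cls (d * (d - 1) / 2) (d * (d + 1)) = c : Finset ℕ) : Set ℕ) := by
      intro a _ b _ hab
      simp only at hab
      omega
    rw [← Finset.card_image_of_injOn hinj]
    apply card_doubling
    · intro s hs
      rw [Finset.mem_image] at hs
      obtain ⟨d, hd, rfl⟩ := hs
      rw [Finset.mem_filter] at hd
      have := hS d hd.1
      omega
    · intro s hs t ht hst
      rw [Finset.mem_image] at hs ht
      obtain ⟨a, ha, rfl⟩ := hs
      obtain ⟨b, hb, rfl⟩ := ht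
      rw [Finset.mem_filter] at ha hb
      have h1 : sf (a * (a + 1)) = sf (b * (b + 1)) := by
        rw [← cls_natAbs (a * (a - 1) / 2) (a * (a + 1)),
          ← cls_natAbs (b * (b - 1) / 2) (b * (b + 1)), ha.2, hb.2]
      have h2 := sr_sf (a * (a + 1))
      have h3 := sr_sf (b * (b + 1))
      have h4 : (0 : ℤ) < (sf (a * (a + 1)) : ℤ) := by exact_mod_cast sf_pos
      have h5 := pell_gap (D := (sf (a * (a + 1)) : ℤ)) (x := 2 * a + 1) (x' := 2 * b + 1)
        (y := 2 * sr (a * (a + 1))) (y' := 2 * sr (b * (b + 1))) (by positivity) (by positivity)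
        h4 (by positivity) (by positivity) (by
          have h6 : (sr (a * (a + 1)) : ℤ) ^ 2 * (sf (a * (a + 1)) : ℤ) = a * (a + 1) := by
            exact_mod_cast h2
          linear_combination -4 * h6) (by
          have h6 : (sr (b * (b + 1)) : ℤ) ^ 2 * (sf (b * (b + 1)) : ℤ) = b * (b + 1) := by
            exact_mod_cast h3
          rw [h1]
          linear_combination -4 * h6) (by
          have h7 : a < b := by omega
          have h8 : (a : ℤ) < b := by exact_mod_cast h7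
          linarith)
      have h9 : 2 * (2 * a + 1) ≤ 2 * b + 1 := by exact_mod_cast h5
      exact h9

end Pool.Agent.TH349.SIC
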