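import Mathlib

/-!
# Square classes of rational integers in a number field

At most `[K : ℚ]` squarefree integers have a square root in the number field `K`.
-/

set_option autoImplicit false

open Polynomial Module

namespace Pool.Agent.TH349.SIC

theorem trace_sqrt {K : Type*} [Field K] [Algebra ℚ K] [FiniteDimensional ℚ K] (s : K) (n : ℚ)
    (hs : s ^ 2 = algebraMap ℚ K n) (hn : ¬ IsSquare n) : Algebra.trace ℚ K s = 0 := by
  have hirr : Irreducible (X ^ 2 - C n : ℚ[X]) := by
    apply X_pow_sub_C_irreducible_of_prime Nat.prime_two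
    intro b hb
    exact hn ⟨b, by rw [← hb, sq]⟩
  have hmin : minpoly ℚ s = X ^ 2 - C n := by
    symm
    apply minpoly.eq_of_irreducible_of_monic hirr
    · rw [map_sub, map_pow, aeval_X, aeval_C, hs, sub_self]
    · exact monic_X_pow_sub_C n two_ne_zero
  rw [trace_eq_finrank_mul_minpoly_nextCoeff, hmin]
  have h3 : (X ^ 2 - C n : ℚ[X]).natDegree = 2 := natDegree_X_pow_sub_C
  rw [nextCoeff_of_natDegree_pos (by rw [h3]; norm_num), h3]
  simp

/-- the prime factors of a squarefree number divide the cofactor in a square -/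
theorem dvd_cofactor {u v w : ℕ} (hu : Squarefree u) (huv : u * v = w * w) {p : ℕ}
    (hp : p.Prime) (hpu : p ∣ u) : p ∣ v := by
  by_contra hpv
  have h2 : p ∣ w := by
    have h : p ∣ w * w := by rw [← huv]; exact hpu.mul_right v
    exact ((Nat.Prime.dvd_mul hp).mp h).elim id id
  obtain ⟨w', rfl⟩ := h2
  obtain ⟨u', rfl⟩ := hpu
  have h3 : u' * v = p * (w' * w') := by
    apply Nat.eq_of_mul_eq_mul_left hp.pos
    linarith [huv]
  have h4 : p ∣ u' := by
    have h : p ∣ u' * v := by rw [h3]; exact Dvd.intro _ rfl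
    exact ((Nat.Prime.dvd_mul hp).mp h).resolve_right hpv
  obtain ⟨u'', rfl⟩ := h4
  have h5 : p * p ∣ p * (p * u'') := ⟨u'', by ring⟩
  exact hp.one_lt.ne' (Nat.isUnit_iff.mp (hu p h5))

/-- distinct squarefree integers differ by a non-square -/
theorem not_isSquare_mul {a b : ℤ} (ha : Squarefree a) (hb : Squarefree b) (hab : a ≠ b) :
    ¬ IsSquare ((a * b : ℤ) : ℚ) := by
  intro h
  have h1 : IsSquare (a * b : ℤ) := by
    rw [Rat.isSquare_intCast_iff] at h
    exact h
  obtain ⟨c, hc⟩ := h1
  have ha0 : a ≠ 0 := ha.ne_zero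
  have hb0 : b ≠ 0 := hb.ne_zero
  have hsa : Squarefree a.natAbs := Int.squarefree_natAbs.mpr ha
  have hsb : Squarefree b.natAbs := Int.squarefree_natAbs.mpr hb
  have hc' : a.natAbs * b.natAbs = c.natAbs * c.natAbs := by
    rw [← Int.natAbs_mul, ← Int.natAbs_mul, hc]
  have key : a.natAbs = b.natAbs := by
    rw [Nat.Squarefree.ext_iff hsa hsb]
    intro p hp
    exact ⟨fun h => dvd_cofactor hsa hc' hp h,
      fun h => dvd_cofactor hsb (by rw [mul_comm]; exact hc') hp h⟩
  rcases Int.natAbs_eq_natAbs_iff.mp key with h | h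
  · exact hab h
  · have h2 : 0 ≤ c * c := mul_self_nonneg c
    rw [← hc, h] at h2
    have h3 : 0 < b * b := mul_self_pos.mpr hb0
    nlinarith

/-- at most `[K : ℚ]` squarefree integers have a square root in `K` -/
theorem card_classes {K : Type*} [Field K] [Algebra ℚ K] [FiniteDimensional ℚ K]
    (T : Finset ℤ) (hT : ∀ m ∈ T, Squarefree m ∧ ∃ r : K, r ^ 2 = (m : K)) :
    T.card ≤ finrank ℚ K := by
  classical
  choose! hsf r hr using hT
  have hlin : LinearIndependent ℚ (fun m : T => r m.1) := by
    rw [Fintype.linearIndependent_iff]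
    intro c hc m
    have h1 := congrArg (fun z => Algebra.trace ℚ K (r m.1 * z)) hc
    simp only [mul_zero, map_zero, Finset.mul_sum, map_sum] at h1
    rw [Finset.sum_eq_single m] at h1
    · have h2 : r m.1 * (c m • r m.1) = algebraMap ℚ K (c m * (m.1 : ℚ)) := by
        rw [Algebra.smul_def, map_mul]
        have h3 : algebraMap ℚ K (m.1 : ℚ) = (m.1 : K) := by simp
        rw [h3, ← hr m.1 m.2]
        ring
      rw [h2, Algebra.trace_algebraMap, nsmul_eq_mul] at h1
      have h4 : (m.1 : ℚ) ≠ 0 := by exact_mod_cast (hsf m.1 m.2).ne_zero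
      have h5 : (finrank ℚ K : ℚ) ≠ 0 := by
        exact_mod_cast (Module.finrank_pos (R := ℚ) (M := K)).ne'
      rcases mul_eq_zero.mp h1 with h6 | h6
      · exact absurd h6 h5
      · exact (mul_eq_zero.mp h6).resolve_right h4
    · intro m' _ hne
      have h2 : r m.1 * (c m' • r m'.1) = c m' • (r m.1 * r m'.1) := by
        rw [mul_smul_comm]
      rw [h2, map_smul]
      have h3 : Algebra.trace ℚ K (r m.1 * r m'.1) = 0 := by
        apply trace_sqrt _ ((m.1 * m'.1 : ℤ) : ℚ)
        · rw [mul_pow, hr m.1 m.2, hr m'.1 m'.2, map_intCast]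
          push_cast
          ring
        · apply not_isSquare_mul (hsf m.1 m.2) (hsf m'.1 m'.2)
          intro h
          exact hne (Subtype.ext h.symm)
      rw [h3, smul_zero]
    · intro h
      exact absurd (Finset.mem_univ _) h
  have h := hlin.fintype_card_le_finrank
  rwa [Fintype.card_coe] at h

end Pool.Agent.TH349.SIC
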